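import Pool.Agent.Y735.EL.Dup
import Pool.Agent.Y735.LG.NotLgt2
import Pool.Agent.W603.CX.Basic

/-!
Maps from curves to projective varieties: bounded degrees, curves of genus at most one, lines.
-/

set_option autoImplicit false

open MvPolynomial FF Pool.Agent.W603.LV Pool.Agent.W603.PV Pool.Agent.W602.GT
open LinearAlgebra.Projectivization
open scoped IntermediateField

namespace Pool.Agent.Y735.EL

section defs

variable {K A : Type} [Field K] {n : ℕ}

/-- The vector `f` is the vector of homogeneous coordinates of a morphism to `F a = 0` (for all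
`a`) from the smooth projective curve with function field `L`. -/
def IsMap (F : A → MvPolynomial (Fin (n + 1)) K) {L : Type} [Field L] [Algebra K L]
    (f : Fin (n + 1) → L) : Prop :=
  f ≠ 0 ∧ ∀ a, aeval f (F a) = 0

/-- The degrees of the morphisms from curves of genus `g` are at most `B max (2 g - 2, 0)`. -/
def AlgHyp (F : A → MvPolynomial (Fin (n + 1)) K) : Prop :=
  ∃ B : ℕ, ∀ (L : Type) [Field L] [Algebra K L] [IsFF K L] (f : Fin (n + 1) → L),
    IsMap F f → pht K f ≤ B * max (canDeg K L) 0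

/-- The degrees of the morphisms from each curve are bounded. -/
def Bdd (F : A → MvPolynomial (Fin (n + 1)) K) : Prop :=
  ∀ (L : Type) [Field L] [Algebra K L] [IsFF K L], ∃ B : ℤ, ∀ f : Fin (n + 1) → L,
    IsMap F f → pht K f ≤ B

/-- The morphisms from the curves of genus at most one are constant. -/
def GenusOne (F : A → MvPolynomial (Fin (n + 1)) K) : Prop :=
  ∀ (L : Type) [Field L] [Algebra K L] [IsFF K L], canDeg K L ≤ 0 → ∀ f : Fin (n + 1) → L,
    IsMap F f → ∃ (c : L) (x : Fin (n + 1) → K), ∀ i, f i = c * algebraMap K L (x i)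

/-- The points of `F a = 0` with homogeneous coordinates in the ring generated by the set `T` which
generate the unit ideal of this ring. -/
def RingPts (F : A → MvPolynomial (Fin (n + 1)) K) (T : Finset K) :
    Set (ℙ K (Fin (n + 1) → K)) :=
  {p | ∃ x : Fin (n + 1) → K, (∀ a, eval x (F a) = 0) ∧
    (∀ i, x i ∈ Subring.closure (T : Set K)) ∧
    (∃ c : Fin (n + 1) → K, (∀ i, c i ∈ Subring.closure (T : Set K)) ∧ ∑ i, c i * x i = 1) ∧
    ∃ hx : x ≠ 0, p = Projectivization.mk K x hx}

end defs

variable {K A : Type} [Field K] {n : ℕ} {F : A → MvPolynomial (Fin (n + 1)) K}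

section

variable [CharZero K] [IsAlgClosed K]

/-- Bounded degrees and endomorphisms. -/
theorem const_of_bdd {L : Type} [Field L] [Algebra K L] [IsFF K L] (φ : L →ₐ[K] L) {N : ℕ}
    (hN : 2 ≤ N) (hφ : ∀ g, hgt K (φ g) = N * hgt K g) {B : ℤ}
    (hB : ∀ f : Fin (n + 1) → L, IsMap F f → pht K f ≤ B) {f : Fin (n + 1) → L} (hf : IsMap F f)
    {j l : Fin (n + 1)} (hj : f j ≠ 0) (hl : f l ≠ 0) : hgt K (f j / f l) ≤ 0 := by
  by_contra hcon
  push Not at hcon
  have key : ∀ m : ℕ, ∃ f' : Fin (n + 1) → L, IsMap F f' ∧ f' j ≠ 0 ∧ f' l ≠ 0 ∧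
      (2 : ℤ) ^ m ≤ hgt K (f' j / f' l) := by
    intro m
    induction m with
    | zero => exact ⟨f, hf, hj, hl, by rw [pow_zero]; omega⟩
    | succ m ih =>
      obtain ⟨f', h1, h2, h3, h4⟩ := ih
      refine ⟨fun i => φ (f' i), ⟨fun h0 => ?_, fun a => ?_⟩, (_root_.map_ne_zero φ).2 h2,
        (_root_.map_ne_zero φ).2 h3, ?_⟩
      · exact h2 ((map_eq_zero φ).1 (congrFun h0 j))
      · have h5 : aeval (fun i => φ (f' i)) (F a) = φ (aeval f' (F a)) := by
          have h6 : aeval (R := K) (fun i => φ (f' i)) = φ.comp (aeval f') := by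
            apply MvPolynomial.algHom_ext
            intro i
            rw [aeval_X, AlgHom.comp_apply, aeval_X]
          rw [h6]
          rfl
        rw [h5, h1.2 a, map_zero]
      · rw [← map_div₀, hφ, pow_succ]
        have h5 : (2 : ℤ) ≤ N := by exact_mod_cast hN
        have h6 : (0 : ℤ) < 2 ^ m := by positivity
        nlinarith
  obtain ⟨f', h1, h2, h3, h4⟩ := key (B.toNat)
  have h5 := Pool.Agent.W603.CX.hgt_le_pht (k := K) f' h2 h3
  have h6 := hB f' h1
  have h7 : ((B.toNat : ℕ) : ℤ) < 2 ^ B.toNat := by exact_mod_cast Nat.lt_two_pow_self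
  have h8 := Int.self_le_toNat B
  omega

/-- The squaring on a rational function field. -/
theorem exists_sq {L : Type} [Field L] [Algebra K L] [IsFF K L] (h : canDeg K L < 0) :
    ∃ (φ : L →ₐ[K] L) (N : ℕ), 2 ≤ N ∧ ∀ f, hgt K (φ f) = N * hgt K f := by
  obtain ⟨t, ht⟩ := Pool.Agent.TH143.GE.rational_of_neg h
  have htr : Transcendental K t := by
    intro halg
    obtain ⟨s, hs⟩ := IsFF.exists_transcendental (k := K) (K := L)
    apply hs
    have h1 : s ∈ K⟮t⟯ := by rw [ht]; exact IntermediateField.mem_top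
    have h2 : Algebra.IsAlgebraic K K⟮t⟯ := IntermediateField.isAlgebraic_adjoin_simple
      halg.isIntegral
    have h3 := h2.isAlgebraic (⟨s, h1⟩ : K⟮t⟯)
    exact (isAlgebraic_algebraMap_iff (algebraMap K⟮t⟯ L).injective).2 h3
  have htr2 : Transcendental K (t ^ 2) := fun h => htr (h.of_pow (by norm_num))
  obtain ⟨φ, hφ⟩ : ∃ φ : L →ₐ[K] L, φ t = t ^ 2 := by
    let e : L ≃ₐ[K] K⟮t⟯ := (IntermediateField.topEquiv.symm).trans
      (IntermediateField.equivOfEq ht.symm)
    have he : e t = IntermediateField.AdjoinSimple.gen K t := rfl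
    refine ⟨((K⟮t ^ 2⟯.val).comp (((RatFunc.algEquivOfTranscendental t htr).symm.trans
      (RatFunc.algEquivOfTranscendental (t ^ 2) htr2)) : K⟮t⟯ →ₐ[K] K⟮t ^ 2⟯)).comp
        (e : L →ₐ[K] K⟮t⟯), ?_⟩
    change ((RatFunc.algEquivOfTranscendental (t ^ 2) htr2
        ((RatFunc.algEquivOfTranscendental t htr).symm (e t)) : K⟮t ^ 2⟯) : L) = t ^ 2
    rw [he, RatFunc.algEquivOfTranscendental_symm_gen, RatFunc.algEquivOfTranscendental_X]
  obtain ⟨N, hN⟩ := hgt_hom φ
  refine ⟨φ, N, ?_, hN⟩
  have ht0 : t ≠ 0 := fun h0 => htr (h0 ▸ isAlgebraic_zero)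
  have h1 := hN t
  rw [hφ, hgt_pow ht0] at h1
  have h2 : 1 ≤ hgt K t := by
    by_contra hcon
    obtain ⟨c, hc⟩ := const_of_hgt (k := K) (f := t) (by omega)
    exact htr (hc ▸ isAlgebraic_algebraMap c)
  have h3 : (N : ℤ) = 2 := by
    push_cast at h1
    nlinarith
  have h4 : N = 2 := by exact_mod_cast h3
  omega

/-- Bounded degrees imply that the maps from curves of genus at most one are constant. -/
theorem genusOne_of_bdd (h : Bdd F) : GenusOne F := by
  intro L _ _ _ hL f hf
  obtain ⟨B, hB⟩ := h L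
  obtain ⟨φ, N, hN, hφ⟩ : ∃ (φ : L →ₐ[K] L) (N : ℕ), 2 ≤ N ∧ ∀ f, hgt K (φ f) = N * hgt K f := by
    rcases hL.lt_or_eq with h1 | h1
    · exact exists_sq h1
    · exact exists_dup h1
  obtain ⟨l, hl⟩ := Function.ne_iff.1 hf.1
  have hl' : f l ≠ 0 := hl
  have h2 : ∀ j, ∃ c : K, f j / f l = algebraMap K L c := by
    intro j
    by_cases hj : f j = 0
    · exact ⟨0, by rw [hj, zero_div, map_zero]⟩
    · exact const_of_hgt (const_of_bdd φ hN hφ hB hf hj hl')
  choose x hx using h2
  exact ⟨f l, x, fun i => by rw [← hx, mul_div_cancel₀ _ hl']⟩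

/-- A linear bound. -/
theorem algHyp_of (h : ∃ c : ℤ, 0 ≤ c ∧ ∀ (L : Type) [Field L] [Algebra K L] [IsFF K L]
    (f : Fin (n + 1) → L), IsMap F f → ∀ t : L, Transcendental K t →
      pht K f ≤ c * (canDeg K L + 2 * hgt K t))
    (hsmall : ∀ (L : Type) [Field L] [Algebra K L] [IsFF K L],
      ∃ t : L, Transcendental K t ∧ hgt K t ≤ max (canDeg K L + 1) 0 + 1) : AlgHyp F := by
  obtain ⟨c, hc0, hc⟩ := h
  have hb : Bdd F := by
    intro L _ _ _
    obtain ⟨t, ht, -⟩ := hsmall L
    exact ⟨_, fun f hf => hc L f hf t ht⟩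
  refine ⟨(7 * c).toNat, fun L _ _ _ f hf => ?_⟩
  have e7 : (((7 * c).toNat : ℕ) : ℤ) = 7 * c := Int.toNat_of_nonneg (by positivity)
  rw [e7]
  rcases le_or_gt (canDeg K L) 0 with h1 | h1
  · obtain ⟨c', x, hcx⟩ := genusOne_of_bdd hb L h1 f hf
    rw [max_eq_right h1, mul_zero]
    obtain ⟨l, hl⟩ := Function.ne_iff.1 hf.1
    have hl' : f l ≠ 0 := hl
    have h2 := pht_le (k := K) f hl'
    have h3 : ∑ j, hgt K (f j / f l) = 0 := Finset.sum_eq_zero fun j _ => by
      have hc : c' ≠ 0 := by
        rintro rfl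
        apply hl'
        rw [hcx, zero_mul]
      rw [hcx j, hcx l, mul_div_mul_left _ _ hc, ← map_div₀]
      exact hgt_algebraic (isAlgebraic_algebraMap _)
    omega
  · obtain ⟨t, ht, ht1⟩ := hsmall L
    rw [max_eq_left h1.le]
    rw [max_eq_left (by omega)] at ht1
    refine (hc L f hf t ht).trans ?_
    have h2 : canDeg K L + 2 * hgt K t ≤ 7 * canDeg K L := by omega
    calc c * (canDeg K L + 2 * hgt K t) ≤ c * (7 * canDeg K L) := mul_le_mul_of_nonneg_left h2 hc0
      _ = 7 * c * canDeg K L := by ring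

theorem bdd_of_algHyp (h : AlgHyp F) : Bdd F := by
  obtain ⟨B, hB⟩ := h
  exact fun L _ _ _ => ⟨_, fun f hf => hB L f hf⟩

open Pool.Agent.Y735.LG in
/-- A line gives a nonconstant map. -/
theorem no_line_of_genusOne (h : GenusOne F) (W : Submodule K (Fin (n + 1) → K))
    (hW : Module.finrank K W = 2) (hF : ∀ a, ∀ v ∈ W, eval v (F a) = 0) : False := by
  have hinf : Infinite K := IsAlgClosed.instInfinite
  have hinj := FaithfulSMul.algebraMap_injective (Polynomial K) (RatFunc K)
  have hff : IsFF K (RatFunc K) := ⟨ess_ratFunc, trdeg_ratFunc⟩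
  obtain ⟨P, hP, Q, hQ, hli, -⟩ := exists_basis hW (B := ∅) (by simp) (by simp)
  obtain ⟨i, j, hij⟩ := exists_det hli
  have hzero : ∀ l, gp P Q l = 0 → P l = 0 ∧ Q l = 0 := by
    intro l hl
    have h1 : Polynomial.C (P l) + Polynomial.X * Polynomial.C (Q l) = 0 := by
      apply hinj
      rw [map_zero]
      exact hl
    have h2 : P l = 0 := by
      have := congrArg (Polynomial.eval 0) h1
      simpa using this
    refine ⟨h2, ?_⟩
    have := congrArg (Polynomial.eval 1) h1
    simpa [h2] using this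
  have hmap : IsMap F (gp P Q) := by
    refine ⟨fun h0 => ?_, fun a => ?_⟩
    · apply hij
      rw [(hzero i (congrFun h0 i)).1, (hzero j (congrFun h0 j)).1]
      ring
    · rw [aeval_gp]
      have h3 : gl P Q (F a) = 0 := Polynomial.funext fun t => by
        rw [eval_gl, Polynomial.eval_zero]
        exact hF a _ (add_mem hP (W.smul_mem _ hQ))
      rw [h3, map_zero]
  obtain ⟨c, x, hx⟩ := h (RatFunc K) (by
    rw [Pool.Agent.W619.PQ.canDeg_rational (x := (RatFunc.X : RatFunc K)) RatFunc.adjoin_X]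
    norm_num) (gp P Q) hmap
  have hpoly : (Polynomial.C (P i) + Polynomial.X * Polynomial.C (Q i)) * Polynomial.C (x j) =
      (Polynomial.C (P j) + Polynomial.X * Polynomial.C (Q j)) * Polynomial.C (x i) := by
    apply hinj
    rw [map_mul, map_mul]
    change gp P Q i * _ = gp P Q j * _
    have h3 : ∀ y : K, algebraMap (Polynomial K) (RatFunc K) (Polynomial.C y) =
        algebraMap K (RatFunc K) y := by
      intro y
      rw [IsScalarTower.algebraMap_apply K (Polynomial K) (RatFunc K)]
      rfl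
    rw [h3, h3, hx i, hx j]
    ring
  have e0 : P i * x j = P j * x i := by
    have := congrArg (Polynomial.eval 0) hpoly
    simpa using this
  have e1 : Q i * x j = Q j * x i := by
    have := congrArg (Polynomial.eval 1) hpoly
    simp only [Polynomial.eval_add, Polynomial.eval_mul, Polynomial.eval_C, Polynomial.eval_X,
      one_mul] at this
    linear_combination this - e0
  have hxj : x j = 0 := by
    have h1 : (P i * Q j - P j * Q i) * x j = 0 := by linear_combination Q j * e0 - P j * e1
    exact (mul_eq_zero.1 h1).resolve_left hij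
  have hxi : x i = 0 := by
    have h1 : (P i * Q j - P j * Q i) * x i = 0 := by linear_combination Q i * e0 - P i * e1
    exact (mul_eq_zero.1 h1).resolve_left hij
  apply hij
  rw [(hzero i (by rw [hx, hxi, map_zero, mul_zero])).1,
    (hzero j (by rw [hx, hxj, map_zero, mul_zero])).1]
  ring

end

open Pool.Agent.Y735.LG in
/-- A line has infinitely many points over a finitely generated ring. -/
theorem ring_infinite [CharZero K] {W : Submodule K (Fin (n + 1) → K)}
    (hW : Module.finrank K W = 2) (hF : ∀ a, ∀ v ∈ W, eval v (F a) = 0) :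
    ∃ T : Finset K, (RingPts F T).Infinite := by
  classical
  obtain ⟨u, hu, v, hv, hli, -⟩ := exists_basis hW (B := ∅) (by simp) (by simp)
  obtain ⟨i, j, hij⟩ := exists_det hli
  let T : Finset K := Finset.univ.image u ∪ Finset.univ.image v ∪
    {(u i * v j - u j * v i)⁻¹}
  have hu' : ∀ l, u l ∈ Subring.closure (T : Set K) := fun l => Subring.subset_closure (by
    simp [T])
  have hv' : ∀ l, v l ∈ Subring.closure (T : Set K) := fun l => Subring.subset_closure (by
    simp [T])
  have hw : (u i * v j - u j * v i)⁻¹ ∈ Subring.closure (T : Set K) := Subring.subset_closure (by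
    simp [T])
  refine ⟨T, ?_⟩
  have hwt : ∀ t : K, (u + t • v) i * v j - (u + t • v) j * v i = u i * v j - u j * v i := by
    intro t
    simp only [Pi.add_apply, Pi.smul_apply, smul_eq_mul]
    ring
  have hne : ∀ t : K, u + t • v ≠ 0 := by
    intro t h0
    apply hij
    rw [← hwt t, h0]
    simp
  refine Set.infinite_of_injective_forall_mem (f := fun t : ℕ =>
    Projectivization.mk K (u + (t : K) • v) (hne t)) ?_ ?_
  · intro s t hst
    change Projectivization.mk K _ _ = Projectivization.mk K _ _ at hst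
    rw [Projectivization.mk_eq_mk_iff'] at hst
    obtain ⟨c, hc⟩ := hst
    have h1 := congrFun hc i
    have h2 := congrFun hc j
    simp only [Pi.add_apply, Pi.smul_apply, smul_eq_mul] at h1 h2
    have h3 : c * (u i * v j - u j * v i) = u i * v j - u j * v i := by
      linear_combination v j * h1 - v i * h2
    have h4 : c = 1 := by
      have h5 : (c - 1) * (u i * v j - u j * v i) = 0 := by rw [sub_mul, one_mul, h3, sub_self]
      exact sub_eq_zero.1 ((mul_eq_zero.1 h5).resolve_right hij)
    rw [h4] at h1 h2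
    have h6 : ((t : K) - s) * (u i * v j - u j * v i) = 0 := by
      linear_combination u i * h2 - u j * h1
    have h7 := sub_eq_zero.1 ((mul_eq_zero.1 h6).resolve_right hij)
    exact_mod_cast h7.symm
  · intro t
    refine ⟨u + (t : K) • v, fun a => hF a _ (add_mem hu (W.smul_mem _ hv)), fun l => ?_,
      ⟨fun l => (if l = i then (u i * v j - u j * v i)⁻¹ * v j else 0) -
        (if l = j then (u i * v j - u j * v i)⁻¹ * v i else 0), fun l => ?_, ?_⟩,
      hne t, rfl⟩
    · simp only [Pi.add_apply, Pi.smul_apply, smul_eq_mul]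
      exact add_mem (hu' l) (mul_mem (natCast_mem _ t) (hv' l))
    · dsimp only
      refine sub_mem ?_ ?_
      · split_ifs
        · exact mul_mem hw (hv' j)
        · exact zero_mem _
      · split_ifs
        · exact mul_mem hw (hv' i)
        · exact zero_mem _
    · have h1 := hwt t
      simp only [sub_mul, ite_mul, zero_mul, Finset.sum_sub_distrib, Finset.sum_ite_eq',
        Finset.mem_univ, if_true]
      have h2 : (u i * v j - u j * v i)⁻¹ * (u i * v j - u j * v i) = 1 := inv_mul_cancel₀ hij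
      obtain ⟨X, hX⟩ : ∃ X, X = (u + (t : K) • v) i := ⟨_, rfl⟩
      obtain ⟨Y, hY⟩ : ∃ Y, Y = (u + (t : K) • v) j := ⟨_, rfl⟩
      rw [← hX, ← hY] at h1 ⊢
      linear_combination h2 + (u i * v j - u j * v i)⁻¹ * h1

end Pool.Agent.Y735.EL
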