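import Pool.Agent.W603.PV.Ext

/-!
The duplication on function fields of genus one.
-/

set_option autoImplicit false

open FF Pool.Agent.W603.LV Pool.Agent.W603.PV
open scoped IntermediateField

namespace Pool.Agent.Y735.EL

/-- The third point of the tangent line. -/
theorem dup_rel {F : Type} [Field F] {x y m a b : F} (h1 : y ^ 2 = x ^ 3 + a * x + b)
    (h2 : 2 * y * m = 3 * x ^ 2 + a) :
    (y + m * (m ^ 2 - 2 * x - x)) ^ 2 = (m ^ 2 - 2 * x) ^ 3 + a * (m ^ 2 - 2 * x) + b := by
  linear_combination h1 + (m ^ 2 - 3 * x) * h2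

/-- The heights of the images under a homomorphism of function fields. -/
theorem hgt_hom {k L E : Type} [Field k] [Field L] [Field E] [Algebra k L] [Algebra k E]
    [IsAlgClosed k] [CharZero k] [IsFF k L] [IsFF k E] (φ : L →ₐ[k] E) :
    ∃ N : ℕ, ∀ f, hgt k (φ f) = N * hgt k f := by
  let _ : Algebra L E := φ.toRingHom.toAlgebra
  have : IsScalarTower k L E := IsScalarTower.of_algebraMap_eq fun c => (φ.commutes c).symm
  exact ⟨Module.finrank L E, fun f => hgt_algebraMap (k := k) (F := L) (L := E) f⟩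

theorem lift_hom {k M F Ω : Type} [Field k] [Field M] [Field F] [Field Ω] [Algebra k M]
    [Algebra M F] [Algebra k F] [IsScalarTower k M F] [Algebra k Ω] [IsAlgClosed Ω]
    [Algebra.IsAlgebraic M F] (g : M →ₐ[k] Ω) :
    ∃ ψ : F →ₐ[k] Ω, ∀ z : M, ψ (algebraMap M F z) = g z := by
  let _ : Algebra M Ω := g.toRingHom.toAlgebra
  have : IsScalarTower k M Ω := IsScalarTower.of_algebraMap_eq fun c => (g.commutes c).symm
  let ψ : F →ₐ[M] Ω := IsAlgClosed.lift
  exact ⟨ψ.restrictScalars k, fun z => ψ.commutes z⟩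

/-- Endomorphisms of a field with an equation of Weierstrass. -/
theorem exists_endo {k F : Type} [Field k] [Field F] [Algebra k F] {x y X Y : F} {a b : k}
    (hx : Transcendental k x) (hX : Transcendental k X)
    (h1 : y ^ 2 = x ^ 3 + algebraMap k F a * x + algebraMap k F b)
    (h2 : Y ^ 2 = X ^ 3 + algebraMap k F a * X + algebraMap k F b)
    (hgen : ∀ f : F, ∃ r s : MvPolynomial (Fin 2) k,
      f = MvPolynomial.aeval ![x, y] r / MvPolynomial.aeval ![x, y] s) :
    ∃ φ : F →ₐ[k] F, φ x = X := by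
  have hxm : x ∈ k⟮x⟯ := IntermediateField.mem_adjoin_simple_self k x
  -- the field is algebraic over `k(x)`
  have hy : IsAlgebraic k⟮x⟯ y := by
    have h3 : IsAlgebraic k⟮x⟯ (y ^ 2) := by
      rw [h1]
      have h4 : x ^ 3 + algebraMap k F a * x + algebraMap k F b ∈ k⟮x⟯ :=
        add_mem (add_mem (pow_mem hxm 3) (mul_mem (k⟮x⟯.algebraMap_mem a) hxm))
          (k⟮x⟯.algebraMap_mem b)
      exact isAlgebraic_algebraMap (⟨_, h4⟩ : k⟮x⟯)
    exact h3.of_pow (by norm_num)
  have halg : Algebra.IsAlgebraic k⟮x⟯ F := by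
    refine ⟨fun f => ?_⟩
    have hp : ∀ r : MvPolynomial (Fin 2) k, IsAlgebraic k⟮x⟯ (MvPolynomial.aeval ![x, y] r) := by
      intro r
      induction r using MvPolynomial.induction_on with
      | C c =>
        rw [MvPolynomial.aeval_C, IsScalarTower.algebraMap_apply k k⟮x⟯ F]
        exact isAlgebraic_algebraMap _
      | add p q hp hq => rw [map_add]; exact hp.add hq
      | mul_X p i hp =>
        rw [map_mul, MvPolynomial.aeval_X]
        refine hp.mul ?_
        fin_cases i
        · exact isAlgebraic_algebraMap (⟨x, hxm⟩ : k⟮x⟯)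
        · exact hy
    obtain ⟨r, s, hrs⟩ := hgen f
    rw [hrs, div_eq_mul_inv]
    exact (hp r).mul (hp s).inv
  obtain ⟨ι, hι⟩ : ∃ ι : F →ₐ[k] AlgebraicClosure F,
      ι = IsScalarTower.toAlgHom k F (AlgebraicClosure F) := ⟨_, rfl⟩
  have hιinj : Function.Injective ι := ι.toRingHom.injective
  obtain ⟨g, hg⟩ : ∃ g : k⟮x⟯ →ₐ[k] AlgebraicClosure F,
      g (IntermediateField.AdjoinSimple.gen k x) = ι X := by
    refine ⟨ι.comp ((k⟮X⟯.val).comp (((RatFunc.algEquivOfTranscendental x hx).symm.trans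
      (RatFunc.algEquivOfTranscendental X hX)) : k⟮x⟯ →ₐ[k] k⟮X⟯)), ?_⟩
    simp only [AlgHom.comp_apply]
    congr 1
    have h3 : (((RatFunc.algEquivOfTranscendental x hx).symm.trans
      (RatFunc.algEquivOfTranscendental X hX)) : k⟮x⟯ →ₐ[k] k⟮X⟯)
        (IntermediateField.AdjoinSimple.gen k x) = IntermediateField.AdjoinSimple.gen k X := by
      change (RatFunc.algEquivOfTranscendental X hX)
        ((RatFunc.algEquivOfTranscendental x hx).symm (IntermediateField.AdjoinSimple.gen k x)) = _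
      rw [RatFunc.algEquivOfTranscendental_symm_gen]
      apply Subtype.ext
      rw [RatFunc.algEquivOfTranscendental_X]
      rfl
    rw [h3]
    rfl
  obtain ⟨ψ, hψ⟩ := lift_hom (F := F) g
  have hψx : ψ x = ι X := by
    rw [← hg, ← hψ]
    rfl
  have hψy : ψ y = ι Y ∨ ψ y = - ι Y := by
    apply sq_eq_sq_iff_eq_or_eq_neg.1
    rw [← map_pow, ← map_pow, h1, h2]
    simp only [map_add, map_mul, map_pow, hψx, AlgHom.commutes]
  have hrange : ∀ f, ψ f ∈ ι.fieldRange := by
    intro f
    have hX' : ι X ∈ ι.fieldRange := ⟨X, rfl⟩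
    have hY' : ι Y ∈ ι.fieldRange := ⟨Y, rfl⟩
    have hp : ∀ r : MvPolynomial (Fin 2) k, ψ (MvPolynomial.aeval ![x, y] r) ∈ ι.fieldRange := by
      intro r
      induction r using MvPolynomial.induction_on with
      | C c =>
        rw [MvPolynomial.aeval_C, ψ.commutes]
        exact ι.fieldRange.algebraMap_mem c
      | add p q hp hq => rw [map_add, map_add]; exact add_mem hp hq
      | mul_X p i hp =>
        rw [map_mul, map_mul, MvPolynomial.aeval_X]
        refine mul_mem hp ?_
        fin_cases i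
        · change ψ x ∈ _
          rw [hψx]
          exact hX'
        · change ψ y ∈ _
          rcases hψy with h | h
          · rw [h]
            exact hY'
          · rw [h]
            exact neg_mem hY'
    obtain ⟨r, s, hrs⟩ := hgen f
    rw [hrs, map_div₀]
    exact div_mem (hp r) (hp s)
  let e : F ≃ₐ[k] ι.fieldRange := AlgEquiv.ofInjectiveField ι
  let φ0 : F →ₐ[k] ι.fieldRange := ψ.codRestrict ι.fieldRange.toSubalgebra hrange
  refine ⟨(e.symm : ι.fieldRange →ₐ[k] F).comp φ0, ?_⟩
  apply hιinj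
  have h3 : ∀ z : ι.fieldRange, ι (e.symm z) = z := by
    intro z
    have h4 : ((e (e.symm z) : ι.fieldRange) : AlgebraicClosure F) = ι (e.symm z) := rfl
    rw [← h4, e.apply_symm_apply]
  change ι (e.symm (φ0 x)) = _
  rw [h3]
  exact hψx

end Pool.Agent.Y735.EL
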