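import Pool.Agent.TH143.GE.Wei
import Pool.Agent.Y735.EL.Hom

/-!
The duplication on function fields of genus one.
-/

set_option autoImplicit false

open FF Pool.Agent.W603.LV Pool.Agent.W603.PV
open scoped IntermediateField

namespace Pool.Agent.Y735.EL

theorem ord_add_ge {k F : Type} [Field k] [Field F] [Algebra k F] (P : Place k F) {f g : F}
    (hf : f ≠ 0) (hg : Ge P (P.ord f + 1) g) : f + g ≠ 0 ∧ P.ord (f + g) = P.ord f := by
  by_cases h0 : g = 0
  · rw [h0, add_zero]
    exact ⟨hf, rfl⟩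
  · have h := hg.resolve_left h0
    exact P.ord_add_eq hf h0 (by omega)

variable {k F : Type} [Field k] [Field F] [Algebra k F] [CharZero k] [IsFF k F] [IsAlgClosed k]

theorem exists_zero {f : F} (hf : Transcendental k f) : ∃ P : Place k F, 0 < P.ord f := by
  by_contra hcon
  push Not at hcon
  have h1 : hgt k f⁻¹ = 0 := by
    unfold hgt
    have h2 : (fun P : Place k F => max (-P.ord f⁻¹) 0) = fun _ => 0 := by
      funext P
      rw [P.ord_inv, neg_neg]
      exact max_eq_right (hcon P)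
    rw [h2, finsum_zero]
  obtain ⟨c, hc⟩ := const_of_hgt (k := k) h1.le
  apply hf
  have h2 : IsAlgebraic k f⁻¹ := hc ▸ isAlgebraic_algebraMap c
  have h3 := h2.inv
  rwa [inv_inv] at h3

/-- The height of the first coordinate of the double. -/
theorem hgt_dup {x y m : F} {a b : k} (hx : Transcendental k x) (hy0 : y ≠ 0)
    (h1 : y ^ 2 = x ^ 3 + algebraMap k F a * x + algebraMap k F b)
    (h2 : 2 * y * m = 3 * x ^ 2 + algebraMap k F a)
    (hns : ∀ e : k, e ^ 3 + a * e + b = 0 → 3 * e ^ 2 + a ≠ 0) :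
    hgt k x < hgt k (m ^ 2 - 2 * x) ∧ Transcendental k (m ^ 2 - 2 * x) := by
  classical
  have hchF : CharZero F := charZero_of_injective_algebraMap (algebraMap k F).injective
  obtain ⟨X, hX⟩ : ∃ X, X = m ^ 2 - 2 * x := ⟨_, rfl⟩
  rw [← hX]
  have hx0 : x ≠ 0 := fun h0 => hx (h0 ▸ isAlgebraic_zero)
  have h4 : (4 : F) ≠ 0 := by norm_num
  have hy2 : (4 : F) * y ^ 2 ≠ 0 := mul_ne_zero h4 (pow_ne_zero 2 hy0)
  have hord4 : ∀ P : Place k F, P.ord (4 : F) = 0 := by
    intro P
    have h5 : (4 : F) = algebraMap k F 4 := (map_ofNat (algebraMap k F) 4).symm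
    rw [h5]
    exact P.ord_const (by norm_num)
  have hkey : X * (4 * y ^ 2) = x ^ 4 + (-(2 * algebraMap k F a * x ^ 2) -
      8 * algebraMap k F b * x + algebraMap k F a ^ 2) := by
    rw [hX]
    linear_combination (2 * y * m + (3 * x ^ 2 + algebraMap k F a)) * h2 - 8 * x * h1
  have hkey2 : X * (4 * y ^ 2) = (3 * x ^ 2 + algebraMap k F a) ^ 2 + (-(8 * x * y ^ 2)) := by
    rw [hkey]
    linear_combination 8 * x * h1
  have hc : ∀ (P : Place k F) (n : ℕ), Ge P 0 ((n : ℕ) : F) := fun P n => Ge.natCast n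
  -- at the poles of `x`
  have hpole : ∀ P : Place k F, P.ord x < 0 → P.ord X = P.ord x := by
    intro P hP
    have hxge : Ge P (P.ord x) x := Or.inr le_rfl
    have e1 : P.ord (x ^ 3) = 3 * P.ord x := by
      rw [P.ord_pow]
      norm_num
    have e2 : P.ord (x ^ 4) = 4 * P.ord x := by
      rw [P.ord_pow]
      norm_num
    have g1 : Ge P (P.ord x) (algebraMap k F a * x + algebraMap k F b) := by
      refine Ge.add ?_ ((Ge.const (P := P) b).mono hP.le)
      have := (Ge.const (P := P) a).mul hxge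
      rwa [zero_add] at this
    have o1 := ord_add_ge P (pow_ne_zero 3 hx0) (g1.mono (by rw [e1]; omega))
    rw [← add_assoc, ← h1, e1] at o1
    have hx2 : Ge P (2 * P.ord x) (x ^ 2) := by
      have := hxge.pow 2
      exact_mod_cast this
    have g2 : Ge P (2 * P.ord x) (-(2 * algebraMap k F a * x ^ 2) -
        8 * algebraMap k F b * x + algebraMap k F a ^ 2) := by
      refine Ge.add (Ge.sub (Ge.neg ?_) ?_) ?_
      · have := ((hc P 2).mul (Ge.const (P := P) a)).mul hx2
        rw [add_zero, zero_add] at this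
        exact_mod_cast this
      · have := (((hc P 8).mul (Ge.const (P := P) b)).mul hxge).mono
          (show 2 * P.ord x ≤ 0 + 0 + P.ord x by omega)
        exact_mod_cast this
      · have := ((Ge.const (P := P) a).pow 2).mono (show 2 * P.ord x ≤ ((2 : ℕ) : ℤ) * 0 by
          rw [mul_zero]; omega)
        exact this
    have o2 := ord_add_ge P (pow_ne_zero 4 hx0) (g2.mono (by rw [e2]; omega))
    rw [← hkey, e2] at o2
    have hX0 : X ≠ 0 := left_ne_zero_of_mul o2.1
    have o3 := o2.2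
    rw [P.ord_mul hX0 hy2, P.ord_mul h4 (pow_ne_zero 2 hy0), hord4, o1.2] at o3
    omega
  -- at a point of order two
  obtain ⟨e, he⟩ : ∃ e : k, e ^ 3 + a * e + b = 0 := by
    obtain ⟨p, hp⟩ : ∃ p : Polynomial k, p = Polynomial.X ^ 3 + (Polynomial.C a * Polynomial.X +
      Polynomial.C b) := ⟨_, rfl⟩
    have hdeg : p.degree ≠ 0 := by
      have hlt : (Polynomial.C a * Polynomial.X + Polynomial.C b).degree <
          (Polynomial.X ^ 3 : Polynomial k).degree := by
        rw [Polynomial.degree_X_pow]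
        refine lt_of_le_of_lt Polynomial.degree_linear_le ?_
        norm_num
      rw [hp, Polynomial.degree_add_eq_left_of_degree_lt hlt, Polynomial.degree_X_pow]
      norm_num
    obtain ⟨e, he⟩ := IsAlgClosed.exists_root p hdeg
    refine ⟨e, ?_⟩
    have h5 : p.eval e = 0 := he
    rw [hp] at h5
    simp only [Polynomial.eval_add, Polynomial.eval_pow, Polynomial.eval_X, Polynomial.eval_mul,
      Polynomial.eval_C] at h5
    linear_combination h5
  have hxe : Transcendental k (x - algebraMap k F e) := by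
    intro h
    apply hx
    have h5 := h.add (isAlgebraic_algebraMap (A := F) e)
    rwa [sub_add_cancel] at h5
  obtain ⟨Q, hQ⟩ := exists_zero hxe
  have hQ1 : Ge Q 1 (x - algebraMap k F e) := Or.inr hQ
  have hQx : Ge Q 0 x := by
    have h5 := (hQ1.mono zero_le_one).add (Ge.const (P := Q) e)
    rwa [sub_add_cancel] at h5
  have he' : algebraMap k F e ^ 3 + algebraMap k F a * algebraMap k F e + algebraMap k F b = 0 := by
    rw [← map_pow, ← map_mul, ← map_add, ← map_add, he, map_zero]
  have hy2Q : Ge Q 1 (y ^ 2) := by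
    have h5 : y ^ 2 = (x - algebraMap k F e) * (x ^ 2 + algebraMap k F e * x +
        algebraMap k F e ^ 2 + algebraMap k F a) := by
      linear_combination h1 + he'
    rw [h5]
    have h6 : Ge Q 0 (x ^ 2 + algebraMap k F e * x + algebraMap k F e ^ 2 + algebraMap k F a) := by
      refine Ge.add (Ge.add (Ge.add ?_ ?_) ?_) (Ge.const a)
      · have := hQx.pow 2
        rwa [mul_zero] at this
      · have := (Ge.const (P := Q) e).mul hQx
        rwa [add_zero] at this
      · have := (Ge.const (P := Q) e).pow 2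
        rwa [mul_zero] at this
    have := hQ1.mul h6
    rwa [add_zero] at this
  have hunit : (3 * x ^ 2 + algebraMap k F a) ≠ 0 ∧ Q.ord (3 * x ^ 2 + algebraMap k F a) = 0 := by
    have h5 : 3 * x ^ 2 + algebraMap k F a = algebraMap k F (3 * e ^ 2 + a) +
        3 * ((x - algebraMap k F e) * (x + algebraMap k F e)) := by
      rw [map_add, map_mul, map_pow, map_ofNat]
      ring
    have h6 : algebraMap k F (3 * e ^ 2 + a) ≠ 0 := (_root_.map_ne_zero _).2 (hns e he)
    have h7 : Q.ord (algebraMap k F (3 * e ^ 2 + a)) = 0 := Q.ord_const (hns e he)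
    have h8 : Ge Q 1 (3 * ((x - algebraMap k F e) * (x + algebraMap k F e))) := by
      have := (hc Q 3).mul (hQ1.mul (hQx.add (Ge.const (P := Q) e)))
      rw [add_zero, zero_add] at this
      exact_mod_cast this
    have h9 := ord_add_ge Q h6 (by rw [h7, zero_add]; exact h8)
    rw [← h5, h7] at h9
    exact h9
  have hXQ : X ≠ 0 ∧ Q.ord X ≤ -1 := by
    have h5 : Q.ord ((3 * x ^ 2 + algebraMap k F a) ^ 2) = 0 := by
      rw [Q.ord_pow, hunit.2, mul_zero]
    have h6 : Ge Q 1 (-(8 * x * y ^ 2)) := by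
      refine Ge.neg ?_
      have := ((hc Q 8).mul hQx).mul hy2Q
      rw [add_zero, zero_add] at this
      exact_mod_cast this
    have h7 := ord_add_ge Q (pow_ne_zero 2 hunit.1) (by rw [h5, zero_add]; exact h6)
    rw [← hkey2, h5] at h7
    have hX0 : X ≠ 0 := left_ne_zero_of_mul h7.1
    refine ⟨hX0, ?_⟩
    have h8 := h7.2
    rw [Q.ord_mul hX0 hy2, Q.ord_mul h4 (pow_ne_zero 2 hy0), hord4] at h8
    have h9 := hy2Q.resolve_left (pow_ne_zero 2 hy0)
    omega
  refine ⟨?_, Q.transcendental_of_ord_ne (by omega)⟩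
  obtain ⟨T, hT⟩ := exists_supp (k := k) (Finset.univ : Finset (Fin 2)) ![x, X]
  have t1 : ∀ P : Place k F, P.ord x ≠ 0 → P ∈ T := fun P hP => hT 0 (Finset.mem_univ _) P hP
  have t2 : ∀ P : Place k F, P.ord X ≠ 0 → P ∈ T := fun P hP => hT 1 (Finset.mem_univ _) P hP
  rw [hgt_finset x T t1, hgt_finset X T t2]
  refine Finset.sum_lt_sum (fun P _ => ?_) ⟨Q, t2 Q (by omega), ?_⟩
  · rcases lt_or_ge (P.ord x) 0 with h | h
    · rw [hpole P h]
    · rw [max_eq_right (by omega)]
      exact le_max_right _ _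
  · have h5 := hQx.resolve_left hx0
    rw [max_eq_right (by omega)]
    exact lt_of_lt_of_le (by omega) (le_max_left _ _)

/-- **The duplication** on a function field of genus one. -/
theorem exists_dup (h0 : canDeg k F = 0) : ∃ (φ : F →ₐ[k] F) (N : ℕ), 2 ≤ N ∧
    ∀ f, hgt k (φ f) = N * hgt k f := by
  obtain ⟨x, y, a, b, hx, h1, hind, hgen, hns⟩ := Pool.Agent.TH143.GE.weier (k := k) (F := F) h0
  have hchF : CharZero F := charZero_of_injective_algebraMap (algebraMap k F).injective
  have hy0 : y ≠ 0 := by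
    intro h
    have h2 := (hind 0 1 (by rw [h, map_zero, mul_zero, add_zero])).2
    exact one_ne_zero h2
  obtain ⟨m, hm⟩ : ∃ m : F, 2 * y * m = 3 * x ^ 2 + algebraMap k F a := by
    refine ⟨(3 * x ^ 2 + algebraMap k F a) / (2 * y), ?_⟩
    rw [mul_div_cancel₀]
    exact mul_ne_zero two_ne_zero hy0
  obtain ⟨h2, h3⟩ := hgt_dup hx hy0 h1 hm hns
  obtain ⟨φ, hφ⟩ := exists_endo hx h3 h1 (dup_rel h1 hm) hgen
  obtain ⟨N, hN⟩ := hgt_hom φ
  refine ⟨φ, N, ?_, hN⟩
  have h4 := hN x
  rw [hφ] at h4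
  rw [h4] at h2
  have h5 : 0 ≤ hgt k x := hgt_nonneg _
  by_contra hcon
  have h6 : (N : ℤ) ≤ 1 := by
    push Not at hcon
    exact_mod_cast Nat.lt_succ_iff.1 hcon
  nlinarith

end Pool.Agent.Y735.EL
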