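import Pool.Agent.Y735.EL.Curves
import Pool.Agent.Y735.LG.CI
import Pool.Agent.Y741.UFin2

/-!
Generic complete intersections: maps from curves, and points over finitely generated rings and
fields.
-/

set_option autoImplicit false

open MvPolynomial FF Pool.Agent.W603.LV Pool.Agent.W603.PV Pool.Agent.W602.GT Pool.Agent.TH145.MG
  Pool.Agent.TH145.GH
open Pool.Agent.TH145.GC (Cf)
open LinearAlgebra.Projectivization
open Pool.Agent.Y735.LG

namespace Pool.Agent.Y735.EL

open Pool.Agent.Y741 (IsLine Pts Bd RPts LineIn EPts Exc mapF)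

variable {k K : Type} [Field k] [Field K] [IsAlgClosed K] [CharZero K] [Algebra k K] {n : ℕ}
  {A : Type} [Fintype A] {d : A → ℕ}

/-- The degrees of the curves in generic complete intersections without lines. -/
theorem deg_ci (hn : 1 ≤ n) (hd0 : ∀ a, 0 < d a)
    (hd : 3 * n + 3 ≤ 2 * ∑ a, d a + Fintype.card A)
    (hd' : 2 * n ≤ ∑ a, d a + Fintype.card A + 1)
    (F : A → MvPolynomial (Fin (n + 1)) K) (hF : ∀ a, (F a).IsHomogeneous (d a))
    (hgen : AlgebraicIndependent k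
      fun p : (a : A) × {I : Fin (n + 1) →₀ ℕ // I.degree = d a} => (F p.1).coeff p.2.1) :
    ∃ c : ℤ, 0 ≤ c ∧ ∀ (L : Type) [Field L] [Algebra K L] [IsFF K L] (f : Fin (n + 1) → L),
      IsMap F f → ∀ t : L, Transcendental K t → pht K f ≤ c * (canDeg K L + 2 * hgt K t) := by
  classical
  have hcu : (Finset.univ : Finset A).card = Fintype.card A := Finset.card_univ
  obtain ⟨c, hc0, hc⟩ := Pool.Agent.Y741.curve_pairs n A d hn hd0 Finset.univ (by rw [hcu]; exact hd)
  refine ⟨c, hc0, fun L _ _ _ f hf t ht => ?_⟩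
  have hczL : CharZero L := charZero_of_injective_algebraMap (algebraMap K L).injective
  have hczΩ : CharZero (AlgebraicClosure L) :=
    charZero_of_injective_algebraMap (algebraMap L (AlgebraicClosure L)).injective
  have hmapF : (mapF (algebraMap L (AlgebraicClosure L)) fun a => map (algebraMap K L) (F a)) =
      fun a => map (algebraMap K (AlgebraicClosure L)) (F a) := by
    unfold mapF
    funext a
    rw [map_map, ← IsScalarTower.algebraMap_eq]
  have hgen' : AlgebraicIndependent k fun p : Cf n d => (F p.1).coeff p.2.1 := hgen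
  have h1 := hc k K L (AlgebraicClosure L) F hF hgen' f hf.1 t ht (fun a _ => hf.2 a)
    (fun b hb => absurd (Finset.mem_univ b) hb) (by
      rw [hmapF]
      intro hexc
      obtain ⟨W, hW, hWB, hfW⟩ := Pool.Agent.Y741.exc_line (fun a => (hF a).map _)
        (fun b hb => absurd (Finset.mem_univ b) hb) hexc
      exact Pool.Agent.Y741.no_exc_ext' (k0 := k) Finset.univ
        (Or.inr ⟨rfl, by rw [hcu]; exact hd'⟩) hF hgen' W hW hWB)
  have h2 : {P : Place K L | ∃ b, b ∉ (Finset.univ : Finset A) ∧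
      d b * pord P f < P.ord (aeval f (F b))} = ∅ := by
    ext P
    refine ⟨?_, fun h => h.elim⟩
    rintro ⟨b, hb, -⟩
    exact hb (Finset.mem_univ b)
  rw [h2, Set.ncard_empty, Nat.cast_zero, add_zero] at h1
  exact h1

omit [IsAlgClosed K] [CharZero K] [Fintype A] in
theorem ind_unflat {F : A → MvPolynomial (Fin (n + 1)) K}
    {I0 : ∀ a, {I : Fin (n + 1) →₀ ℕ // I.degree = d a}}
    (hind : AlgebraicIndependent k
      fun p : (a : A) × {I : Fin (n + 1) →₀ ℕ // I.degree = d a ∧ I ≠ (I0 a).1} =>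
        (F p.1).coeff p.2.1 / (F p.1).coeff (I0 p.1).1) :
    AlgebraicIndependent k
      fun p : (a : A) × {I : {I : Fin (n + 1) →₀ ℕ // I.degree = d a} // I ≠ I0 a} =>
        (F p.1).coeff p.2.1.1 / (F p.1).coeff (I0 p.1).1 := by
  refine hind.comp (fun p : (a : A) × {I : {I : Fin (n + 1) →₀ ℕ // I.degree = d a} // I ≠ I0 a} =>
    (⟨p.1, ⟨p.2.1.1, p.2.1.2, fun h => p.2.2 (Subtype.ext h)⟩⟩ :
      (a : A) × {I : Fin (n + 1) →₀ ℕ // I.degree = d a ∧ I ≠ (I0 a).1})) ?_
  rintro ⟨a, ⟨⟨I, hI⟩, hI2⟩⟩ ⟨a', ⟨⟨I', hI'⟩, hI2'⟩⟩ h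
  have e1 : a = a' := congrArg Sigma.fst h
  subst e1
  have e2 := eq_of_heq (Sigma.mk.inj_iff.1 h).2
  have e3 : I = I' := congrArg (fun z => z.1) e2
  subst e3
  rfl

/-- **Hyperbolicity of generic complete intersections.** -/
theorem groupless_tfae (hn : 1 ≤ n) (hd0 : ∀ a, 0 < d a)
    (hdim : Fintype.card A + 5 ≤ n ∨ ∑ a, (d a + 1) ≤ 2 * n - 2 ∨
      3 * n + 3 ≤ ∑ a, (d a + 1) + ∑ a, d a)
    (F : A → MvPolynomial (Fin (n + 1)) K) (hF : ∀ a, (F a).IsHomogeneous (d a))
    (hgen : AlgebraicIndependent k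
      fun p : (a : A) × {I : Fin (n + 1) →₀ ℕ // I.degree = d a} => (F p.1).coeff p.2.1) :
    [AlgHyp F, Bdd F, GenusOne F, ∀ W, ¬ LineIn F W, 2 * n - 1 ≤ ∑ a, (d a + 1),
      ∀ T : Finset K, (RingPts F T).Finite,
      ∀ T : Finset K, (EPts F (IntermediateField.adjoin (algebraicClosure k K)
          (T : Set K)).toSubfield).Finite].TFAE := by
  classical
  have hS : ∑ a, (d a + 1) = ∑ a, d a + Fintype.card A := by
    rw [Finset.sum_add_distrib, Finset.sum_const, smul_eq_mul, mul_one, Finset.card_univ]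
  obtain ⟨I0, hI0⟩ : ∃ I0 : A → Fin (n + 1) →₀ ℕ, ∀ a, (I0 a).degree = d a :=
    ⟨fun a => Finsupp.single 0 (d a), fun a => Finsupp.degree_single _ _⟩
  have hgen' : AlgebraicIndependent k fun p : Cf n d => (F p.1).coeff p.2.1 := hgen
  have h0 : ∀ a, (F a).coeff (I0 a) ≠ 0 := fun a => hgen'.ne_zero ⟨a, ⟨I0 a, hI0 a⟩⟩
  have hind := Pool.Agent.Y741.ratio_indep_fam hgen' I0 hI0
  have hgen2 := ind_unflat (I0 := fun a => ⟨I0 a, hI0 a⟩) hind
  obtain ⟨-, -, h3, -⟩ := ci_all hn hd0 F hF (fun a => ⟨I0 a, hI0 a⟩) h0 hgen2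
  have h4 := h3 (by rw [add_comm (∑ a, d a)]; exact hdim)
  have h5 : (∀ W, ¬ LineIn F W) ↔ 2 * n - 1 ≤ ∑ a, (d a + 1) := h4.out 2 3
  have h6 : (∀ T : Finset K, (EPts F (IntermediateField.adjoin (algebraicClosure k K)
      (T : Set K)).toSubfield).Finite) ↔ 2 * n - 1 ≤ ∑ a, (d a + 1) := h4.out 1 3
  have hrange : 2 * n - 1 ≤ ∑ a, (d a + 1) → 3 * n + 3 ≤ 2 * ∑ a, d a + Fintype.card A := by
    intro h
    rcases hdim with h1 | h1 | h1
    · omega
    · omega
    · omega
  tfae_have 4 ↔ 5 := h5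
  tfae_have 7 ↔ 5 := h6
  tfae_have 5 → 1 := fun h => algHyp_of (deg_ci hn hd0 (hrange h) (by omega) F hF hgen)
    fun L _ _ _ => Pool.Agent.Y741.exists_small K L
  tfae_have 1 → 2 := bdd_of_algHyp
  tfae_have 2 → 3 := genusOne_of_bdd
  tfae_have 3 → 4 := fun h W hW => no_line_of_genusOne h W hW.1 hW.2
  tfae_have 7 → 6 := by
    intro h T
    refine (h T).subset ?_
    rintro p ⟨x, hxF, hxT, -, hx0, rfl⟩
    obtain ⟨u, hu⟩ := Projectivization.exists_smul_eq_mk_rep K x hx0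
    refine ⟨fun a => ?_, x, fun i => ?_, hx0, rfl⟩
    · rw [← hu]
      have hu' : u • x = (u : K) • x := rfl
      rw [hu', eval_smul_hom (hF a), hxF a, mul_zero]
    · have h7 : Subring.closure (T : Set K) ≤ (IntermediateField.adjoin (algebraicClosure k K)
          (T : Set K)).toSubfield.toSubring :=
        Subring.closure_le.2 (IntermediateField.subset_adjoin _ _)
      exact h7 (hxT i)
  tfae_have 6 → 4 := by
    intro h W hW
    obtain ⟨T, hT⟩ := ring_infinite hW.1 hW.2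
    exact hT (h T)
  tfae_finish

end Pool.Agent.Y735.EL
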